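import Pool.Agent.TH990.SOS.Sep

set_option autoImplicit false

namespace Pool.Agent.TH990.SOS

open Polynomial Finset

/-- the number of elements of `A` below `x` -/
def idx (A : Finset ℕ) (x : ℕ) : ℕ := (A.filter (· < x)).card

theorem idx_lt_of_lt {A : Finset ℕ} {x y : ℕ} (hx : x ∈ A) (h : x < y) : idx A x < idx A y := by
  unfold idx
  apply Finset.card_lt_card
  rw [Finset.ssubset_iff_of_subset]
  · exact ⟨x, by simp [hx, h], by simp⟩
  · intro z hz
    rw [Finset.mem_filter] at hz ⊢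
    exact ⟨hz.1, hz.2.trans h⟩

theorem idx_lt_card {A : Finset ℕ} {x : ℕ} (hx : x ∈ A) : idx A x < A.card := by
  unfold idx
  apply Finset.card_lt_card
  rw [Finset.ssubset_iff_of_subset (Finset.filter_subset _ _)]
  exact ⟨x, hx, by simp⟩

theorem idx_inj {A : Finset ℕ} {x y : ℕ} (hx : x ∈ A) (hy : y ∈ A) (h : idx A x = idx A y) :
    x = y := by
  rcases lt_trichotomy x y with h1 | h1 | h1
  · exact absurd h (idx_lt_of_lt hx h1).ne
  · exact h1
  · exact absurd h (idx_lt_of_lt hy h1).ne'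

open Classical in
theorem fib (A : Finset ℕ) (W : ℕ → ℕ → ℝ) (F : ℝ[X]) (s : ℕ) (L K m : ℝ) (hL : 0 ≤ L)
    (hK : 0 ≤ K) (hm : 0 ≤ m) (hLs : m * (s * K) < Real.exp L)
    (hW1 : ∀ x ∈ A, ∀ y ∈ A, |W x y| ≤ K * |F.coeff (x+y)|)
    (hrank : ∀ a : ℕ → ℕ, ∃ lam : ℕ → ℝ, (∃ r ≤ s, lam r ≠ 0) ∧
      ∀ y, ∑ r ∈ range (s+1), lam r * W (a r) y = 0)
    (V : Finset ℕ) (l u : ℕ → ℝ) (hV : ∀ g ∈ V, Vx F L l u g) (t : ℕ) :
    ((A ×ˢ A).filter (fun z => (z.1 + z.2 ∈ V ∧ |F.coeff (z.1 + z.2)| ≤ m * |W z.1 z.2|) ∧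
      idx A z.1 + idx A z.2 = t)).card ≤ s := by
  by_contra hcon
  push Not at hcon
  obtain ⟨G, hG⟩ : ∃ G, G = (A ×ˢ A).filter (fun z => (z.1 + z.2 ∈ V ∧
      |F.coeff (z.1 + z.2)| ≤ m * |W z.1 z.2|) ∧ idx A z.1 + idx A z.2 = t) :=
    ⟨_, rfl⟩
  rw [← hG] at hcon
  have hmem : ∀ z ∈ G, z.1 ∈ A ∧ z.2 ∈ A ∧ (z.1 + z.2 ∈ V ∧
      |F.coeff (z.1 + z.2)| ≤ m * |W z.1 z.2|) ∧ idx A z.1 + idx A z.2 = t := by
    intro z hz
    rw [hG, Finset.mem_filter, Finset.mem_product] at hz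
    exact ⟨hz.1.1, hz.1.2, hz.2.1, hz.2.2⟩
  obtain ⟨X, hX⟩ : ∃ X, X = G.image Prod.fst := ⟨_, rfl⟩
  have hXcard : X.card = G.card := by
    rw [hX]
    apply Finset.card_image_of_injOn
    intro z hz z' hz' h
    have h1 := hmem z hz
    have h2 := hmem z' hz'
    have h3 : z.1 = z'.1 := h
    apply Prod.ext h3
    apply idx_inj h1.2.1 h2.2.1
    have h4 := h1.2.2.2
    have h5 := h2.2.2.2
    rw [h3] at h4
    omega
  have hpart : ∀ x ∈ X, ∃ y, (x, y) ∈ G := by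
    intro x hx
    rw [hX, Finset.mem_image] at hx
    obtain ⟨z, hz, rfl⟩ := hx
    exact ⟨z.2, hz⟩
  choose! bb hbb using hpart
  have hXs : s < X.card := by omega
  obtain ⟨a, ha⟩ : ∃ a : ℕ → ℕ, a = fun r => if h : r < X.card then
    X.orderEmbOfFin rfl ⟨r, h⟩ else 0 := ⟨_, rfl⟩
  have haX : ∀ r ≤ s, a r ∈ X := by
    intro r hr
    rw [ha]
    simp only
    rw [dif_pos (by omega)]
    exact Finset.orderEmbOfFin_mem _ _ _
  have hamono : ∀ r q, r < q → q ≤ s → a r < a q := by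
    intro r q hrq hq
    rw [ha]
    simp only
    rw [dif_pos (by omega), dif_pos (by omega)]
    exact (X.orderEmbOfFin rfl).strictMono (by exact hrq)
  refine key A W F s L K m hL hK hm hLs hW1 a (fun r => bb (a r)) ?_ (hrank a) ?_ ?_ hamono ?_ l u ?_
  · intro r hr
    exact (hmem _ (hbb _ (haX r hr))).2.2.1.2
  · intro r hr
    exact (hmem _ (hbb _ (haX r hr))).1
  · intro r hr
    exact (hmem _ (hbb _ (haX r hr))).2.1
  · intro r q hrq hq
    have h1 := hmem _ (hbb _ (haX r (by omega)))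
    have h2 := hmem _ (hbb _ (haX q hq))
    have h3 := hamono r q hrq hq
    have h4 := idx_lt_of_lt h1.1 h3
    show bb (a q) < bb (a r)
    by_contra h5
    rcases (not_lt.mp h5).eq_or_lt with h6 | h6
    · have h7 := h1.2.2.2
      have h8 := h2.2.2.2
      simp only at h7 h8 h4
      rw [h6] at h7
      omega
    · have h7 := h1.2.2.2
      have h8 := h2.2.2.2
      have h9 := idx_lt_of_lt h1.2.1 h6
      simp only at h7 h8 h4 h9
      omega
  · intro r hr
    exact hV _ (hmem _ (hbb _ (haX r hr))).2.2.1.1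

open Classical in
theorem cardV (A : Finset ℕ) (W : ℕ → ℕ → ℝ) (F : ℝ[X]) (s : ℕ) (L K m : ℝ) (hL : 0 ≤ L)
    (hK : 0 ≤ K) (hm : 0 ≤ m) (hLs : m * (s * K) < Real.exp L)
    (hW1 : ∀ x ∈ A, ∀ y ∈ A, |W x y| ≤ K * |F.coeff (x+y)|)
    (hsymm : ∀ x y, W x y = W y x)
    (hrank : ∀ a : ℕ → ℕ, ∃ lam : ℕ → ℝ, (∃ r ≤ s, lam r ≠ 0) ∧
      ∀ y, ∑ r ∈ range (s+1), lam r * W (a r) y = 0)
    (hsupp : ∀ g, F.coeff g ≠ 0 → ∃ x ∈ A, ∃ y ∈ A, x + y = g ∧ |F.coeff g| ≤ m * |W x y|)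
    (V : Finset ℕ) (l u : ℕ → ℝ) (hV : ∀ g ∈ V, Vx F L l u g) : V.card ≤ s * A.card := by
  obtain ⟨H, hH⟩ : ∃ H, H = (A ×ˢ A).filter (fun z => z.1 ≤ z.2 ∧
    (z.1 + z.2 ∈ V ∧ |F.coeff (z.1 + z.2)| ≤ m * |W z.1 z.2|)) := ⟨_, rfl⟩
  have hmemH : ∀ z, z ∈ H ↔ z.1 ∈ A ∧ z.2 ∈ A ∧ z.1 ≤ z.2 ∧
      (z.1 + z.2 ∈ V ∧ |F.coeff (z.1 + z.2)| ≤ m * |W z.1 z.2|) := by
    intro z
    rw [hH, Finset.mem_filter, Finset.mem_product]
    tauto
  have h1 : V ⊆ H.image (fun z => z.1 + z.2) := by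
    intro g hg
    obtain ⟨x, hx, y, hy, hxy, hW⟩ := hsupp g (hV g hg).2.1.1
    rw [Finset.mem_image]
    rcases le_total x y with h | h
    · exact ⟨(x, y), (hmemH _).mpr ⟨hx, hy, h, by
        show x + y ∈ V ∧ |F.coeff (x + y)| ≤ m * |W x y|
        rw [hxy]; exact ⟨hg, hW⟩⟩, hxy⟩
    · exact ⟨(y, x), (hmemH _).mpr ⟨hy, hx, h, by
        show y + x ∈ V ∧ |F.coeff (y + x)| ≤ m * |W y x|
        rw [add_comm, hxy, hsymm]; exact ⟨hg, hW⟩⟩, by show y + x = g; omega⟩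
  have h2 : V.card ≤ H.card := (Finset.card_le_card h1).trans Finset.card_image_le
  -- one antidiagonal
  have hone : ∀ t, 2 * (H.filter (fun z => idx A z.1 + idx A z.2 = t)).card ≤
      s + (if t % 2 = 0 then 1 else 0) := by
    intro t
    obtain ⟨Ht, hHt⟩ : ∃ Ht, Ht = H.filter (fun z => idx A z.1 + idx A z.2 = t) := ⟨_, rfl⟩
    have hmt : ∀ z, z ∈ Ht ↔ (z.1 ∈ A ∧ z.2 ∈ A ∧ z.1 ≤ z.2 ∧
        (z.1 + z.2 ∈ V ∧ |F.coeff (z.1 + z.2)| ≤ m * |W z.1 z.2|)) ∧
        idx A z.1 + idx A z.2 = t := by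
      intro z
      rw [hHt, Finset.mem_filter, hmemH]
    rw [← hHt]
    have hsw : (Ht.image Prod.swap).card = Ht.card :=
      Finset.card_image_of_injective _ Prod.swap_injective
    have hun := Finset.card_union_add_card_inter Ht (Ht.image Prod.swap)
    have hsub : Ht ∪ Ht.image Prod.swap ⊆
        (A ×ˢ A).filter (fun z => (z.1 + z.2 ∈ V ∧ |F.coeff (z.1 + z.2)| ≤ m * |W z.1 z.2|) ∧
          idx A z.1 + idx A z.2 = t) := by
      intro z hz
      rw [Finset.mem_filter, Finset.mem_product]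
      rw [Finset.mem_union, Finset.mem_image] at hz
      rcases hz with hz | ⟨z', hz', rfl⟩
      · have h := (hmt z).mp hz
        exact ⟨⟨h.1.1, h.1.2.1⟩, h.1.2.2.2, h.2⟩
      · have h := (hmt z').mp hz'
        refine ⟨⟨h.1.2.1, h.1.1⟩, ?_, ?_⟩
        · show z'.2 + z'.1 ∈ V ∧ |F.coeff (z'.2 + z'.1)| ≤ m * |W z'.2 z'.1|
          rw [add_comm, hsymm]; exact h.1.2.2.2
        · show idx A z'.2 + idx A z'.1 = t
          rw [add_comm]; exact h.2
    have hle := (Finset.card_le_card hsub).trans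
      (fib A W F s L K m hL hK hm hLs hW1 hrank V l u hV t)
    have hint : ∀ z ∈ Ht ∩ Ht.image Prod.swap, z.1 = z.2 ∧ z.1 ∈ A ∧ 2 * idx A z.1 = t := by
      intro z hz
      rw [Finset.mem_inter, Finset.mem_image] at hz
      obtain ⟨hz1, z', hz', rfl⟩ := hz
      have h := (hmt _).mp hz1
      have h' := (hmt _).mp hz'
      have h3 : z'.2 ≤ z'.1 := h.1.2.2.1
      have h4 : z'.1 ≤ z'.2 := h'.1.2.2.1
      have h5 : z'.2 = z'.1 := le_antisymm h3 h4
      refine ⟨h5, h'.1.2.1, ?_⟩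
      show 2 * idx A z'.2 = t
      have h6 := h'.2
      rw [← h5] at h6
      omega
    have hcap : (Ht ∩ Ht.image Prod.swap).card ≤ if t % 2 = 0 then 1 else 0 := by
      split_ifs with ht
      · rw [Finset.card_le_one]
        intro z hz z' hz'
        have h1 := hint z hz
        have h2 := hint z' hz'
        have h3 : z.1 = z'.1 := idx_inj h1.2.1 h2.2.1 (by omega)
        exact Prod.ext h3 (by rw [← h1.1, ← h2.1, h3])
      · rw [Nat.le_zero, Finset.card_eq_zero, Finset.eq_empty_iff_forall_notMem]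
        intro z hz
        have h1 := hint z hz
        omega
    omega
  have h3 : H.card ≤ s * (range A.card).card := by
    refine Finset.card_le_mul_card_image_of_maps_to
      (f := fun z => (idx A z.1 + idx A z.2) / 2) ?_ s ?_
    · intro z hz
      have h := (hmemH z).mp hz
      have h4 := idx_lt_card h.1
      have h5 := idx_lt_card h.2.1
      rw [Finset.mem_range]
      show (idx A z.1 + idx A z.2) / 2 < A.card
      omega
    · intro j _
      have h4 : H.filter (fun z => (idx A z.1 + idx A z.2) / 2 = j) ⊆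
          H.filter (fun z => idx A z.1 + idx A z.2 = 2 * j) ∪
          H.filter (fun z => idx A z.1 + idx A z.2 = 2 * j + 1) := by
        intro z hz
        rw [Finset.mem_filter] at hz
        rw [Finset.mem_union, Finset.mem_filter, Finset.mem_filter]
        have h5 := hz.2
        rcases Nat.even_or_odd (idx A z.1 + idx A z.2) with h6 | h6
        · left
          refine ⟨hz.1, ?_⟩
          rw [Nat.even_iff] at h6
          omega
        · right
          refine ⟨hz.1, ?_⟩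
          rw [Nat.odd_iff] at h6
          omega
      have h5 := (Finset.card_le_card h4).trans (Finset.card_union_le _ _)
      have h6 := hone (2 * j)
      have h7 := hone (2 * j + 1)
      rw [if_pos (by omega)] at h6
      rw [if_neg (by omega)] at h7
      omega
  rw [Finset.card_range] at h3
  exact h2.trans h3


end Pool.Agent.TH990.SOS
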