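import Pool.Agent.TH990.SOS.Count

set_option autoImplicit false

namespace Pool.Agent.TH990.SOS

open Polynomial Finset

theorem rel (s : ℕ) (c : Fin s → ℝ) (f : Fin s → ℝ[X]) (a : ℕ → ℕ) :
    ∃ lam : ℕ → ℝ, (∃ r ≤ s, lam r ≠ 0) ∧
      ∀ y, ∑ r ∈ range (s+1), lam r * (∑ i, c i * (f i).coeff (a r) * (f i).coeff y) = 0 := by
  obtain ⟨v, hv⟩ : ∃ v : Fin (s+1) → (Fin s → ℝ), v = fun (r : Fin (s+1)) i => (f i).coeff (a (r : ℕ)) := ⟨_, rfl⟩
  have hdep : ¬ LinearIndependent ℝ v := by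
    intro h
    have := h.fintype_card_le_finrank
    simp at this
  obtain ⟨g, hg, i0, hi0⟩ := Fintype.not_linearIndependent_iff.mp hdep
  refine ⟨fun r => if h : r < s+1 then g ⟨r, h⟩ else 0, ⟨i0, by omega, ?_⟩, fun y => ?_⟩
  · simp only [Fin.is_lt, dif_pos, Fin.eta]
    exact hi0
  · rw [Finset.sum_range]
    simp only [Fin.is_lt, dif_pos, Fin.eta]
    have h1 : ∀ i, ∑ r, g r * (f i).coeff (a r) = 0 := fun i => by
      have := congrFun hg i
      rw [hv] at this
      simpa [Finset.sum_apply, Pi.smul_apply, smul_eq_mul] using this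
    calc ∑ r : Fin (s+1), g r * (∑ i, c i * (f i).coeff (a r) * (f i).coeff y)
        = ∑ i, (∑ r : Fin (s+1), g r * (f i).coeff (a r)) * (c i * (f i).coeff y) := by
          simp only [Finset.mul_sum, Finset.sum_mul]
          rw [Finset.sum_comm]
          exact Finset.sum_congr rfl fun i _ => Finset.sum_congr rfl fun r _ => by ring
      _ = 0 := by simp [h1]

/-- the polynomial -/
noncomputable def sos {s : ℕ} (c : Fin s → ℝ) (f : Fin s → ℝ[X]) : ℝ[X] :=
  ∑ i, C (c i) * f i ^ 2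

/-- the symmetric matrix of rank at most `s` -/
noncomputable def Wm {s : ℕ} (c : Fin s → ℝ) (f : Fin s → ℝ[X]) (x y : ℕ) : ℝ :=
  ∑ i, c i * (f i).coeff x * (f i).coeff y

theorem Wm_symm {s : ℕ} (c : Fin s → ℝ) (f : Fin s → ℝ[X]) (x y : ℕ) :
    Wm c f x y = Wm c f y x := by
  unfold Wm
  exact Finset.sum_congr rfl fun i _ => by ring

theorem sos_coeff {s : ℕ} (c : Fin s → ℝ) (f : Fin s → ℝ[X]) (n : ℕ) :
    (sos c f).coeff n = ∑ z ∈ antidiagonal n, Wm c f z.1 z.2 := by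
  unfold sos Wm
  rw [Polynomial.finsetSum_coeff, Finset.sum_comm]
  refine Finset.sum_congr rfl fun i _ => ?_
  rw [coeff_C_mul, sq, coeff_mul, Finset.mul_sum]
  exact Finset.sum_congr rfl fun z _ => by ring

theorem Wm_zero {s : ℕ} (c : Fin s → ℝ) (f : Fin s → ℝ[X]) (A : Finset ℕ)
    (hf : ∀ i, (f i).support ⊆ A) {x y : ℕ} (h : ¬ (x ∈ A ∧ y ∈ A)) : Wm c f x y = 0 := by
  unfold Wm
  apply Finset.sum_eq_zero
  intro i _
  have h0 : ∀ z, z ∉ A → (f i).coeff z = 0 := by
    intro z hz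
    by_contra h1
    exact hz (hf i (Polynomial.mem_support_iff.mpr h1))
  by_cases hx : x ∈ A
  · have hy : y ∉ A := fun hy => h ⟨hx, hy⟩
    rw [h0 y hy, mul_zero]
  · rw [h0 x hx, mul_zero, zero_mul]

/-- all sums of two elements are distinct, up to the order -/
def Sidon (A : Finset ℕ) : Prop :=
  ∀ a ∈ A, ∀ b ∈ A, ∀ a' ∈ A, ∀ b' ∈ A, a + b = a' + b' → (a = a' ∧ b = b') ∨ (a = b' ∧ b = a')

theorem coeff_add {s : ℕ} (c : Fin s → ℝ) (f : Fin s → ℝ[X]) (A : Finset ℕ) (hA : Sidon A)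
    (hf : ∀ i, (f i).support ⊆ A) {x y : ℕ} (hx : x ∈ A) (hy : y ∈ A) :
    (sos c f).coeff (x + y) = if x = y then Wm c f x y else 2 * Wm c f x y := by
  rw [sos_coeff]
  have h1 : ∑ z ∈ antidiagonal (x + y), Wm c f z.1 z.2 =
      ∑ z ∈ ({(x, y), (y, x)} : Finset (ℕ × ℕ)), Wm c f z.1 z.2 := by
    symm
    apply Finset.sum_subset
    · intro z hz
      rw [Finset.mem_insert, Finset.mem_singleton] at hz
      rw [Finset.HasAntidiagonal.mem_antidiagonal]
      rcases hz with rfl | rfl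
      · rfl
      · exact add_comm _ _
    · intro z hz hz'
      apply Wm_zero c f A hf
      rintro ⟨h2, h3⟩
      apply hz'
      rw [Finset.HasAntidiagonal.mem_antidiagonal] at hz
      rw [Finset.mem_insert, Finset.mem_singleton]
      rcases hA _ h2 _ h3 _ hx _ hy hz with ⟨h4, h5⟩ | ⟨h4, h5⟩
      · left; exact Prod.ext h4 h5
      · right; exact Prod.ext h4 h5
  rw [h1]
  split_ifs with h
  · subst h; simp
  · rw [Finset.sum_pair (by
      intro h2
      exact h (Prod.ext_iff.mp h2).1)]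
    show Wm c f x y + Wm c f y x = _
    rw [Wm_symm c f y x]
    ring

/-- from separated roots to vertices with long intervals of dominance -/
theorem extract (F : ℝ[X]) (hF : F ≠ 0) (M : ℝ) (hcardS : (F.support.card : ℝ) ≤ M) (L : ℝ)
    (hL : 0 ≤ L) (N : ℕ) (y : Fin N → ℝ) (hy0 : ∀ i, y i ≠ 0)
    (hroot : ∀ i, F.IsRoot (y i))
    (hsep : ∀ i j, i < j →
      Real.log |y i| + (2 * Real.log (M + 1) + 2 * L * M) ≤ Real.log |y j|) :
    ∃ (V : Finset ℕ) (l u : ℕ → ℝ), V.card = N + 1 ∧ ∀ g ∈ V, Vx F L l u g := by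
  have hM0 : 0 ≤ M := (Nat.cast_nonneg _).trans hcardS
  obtain ⟨d, hd⟩ : ∃ d : ℝ, d = Real.log (M + 1) := ⟨_, rfl⟩
  have hd0 : 0 ≤ d := by rw [hd]; exact Real.log_nonneg (by linarith)
  have hexpd : Real.exp d = M + 1 := by rw [hd, Real.exp_log (by linarith)]
  -- the logarithms of the roots
  obtain ⟨y', hy'⟩ : ∃ y' : ℕ → ℝ, y' = fun i => if h : i < N then y ⟨i, h⟩ else 1 := ⟨_, rfl⟩
  have hy'0 : ∀ k, k < N → y' k ≠ 0 ∧ F.IsRoot (y' k) := by
    intro k hk
    rw [hy']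
    simp only
    rw [dif_pos hk]
    exact ⟨hy0 _, hroot _⟩
  obtain ⟨w, hw⟩ : ∃ w : ℕ → ℝ, w = fun i => Real.log |y' i| := ⟨_, rfl⟩
  have hwsep : ∀ i j, i < j → j < N → w i + (2 * d + 2 * L * M) ≤ w j := by
    intro i j hij hj
    have h1 := hsep ⟨i, by omega⟩ ⟨j, hj⟩ (by exact hij)
    have hi' : y' i = y ⟨i, by omega⟩ := by rw [hy']; simp only; rw [dif_pos]
    have hj' : y' j = y ⟨j, hj⟩ := by rw [hy']; simp only; rw [dif_pos]
    rw [← hi', ← hj', ← hd] at h1
    rw [hw]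
    exact h1
  have hdata : ∀ k, k ≤ N → ∃ (g : ℕ) (l u : ℝ), (k ≠ 0 → w (k - 1) + d ≤ l) ∧
      (k < N → u ≤ w k - d) ∧ l + 2 * L ≤ u ∧ Dom F g l ∧ Dom F g u := by
    intro k hk
    obtain ⟨S, hS⟩ : ∃ S : ℝ, S = if k = 0 then w 0 - d - 2 * L * M else w (k - 1) + d := ⟨_, rfl⟩
    obtain ⟨g, l, u, h1, h2, h3, h4, h5⟩ := exists_long F hF S L hL
    have h6 : 2 * L * F.support.card ≤ 2 * L * M :=
      mul_le_mul_of_nonneg_left hcardS (by linarith)
    refine ⟨g, l, u, ?_, ?_, h2, h4, h5⟩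
    · intro hk0
      rw [if_neg hk0] at hS
      linarith
    · intro hkN
      by_cases hk0 : k = 0
      · rw [if_pos hk0] at hS
        subst hk0
        linarith
      · rw [if_neg hk0] at hS
        have h7 := hwsep (k - 1) k (by omega) hkN
        linarith
  choose! g l u hg1 hg2 hg3 hg4 hg5 using hdata
  have hwmono : ∀ i j, i ≤ j → j < N → w i ≤ w j := by
    intro i j hij hj
    rcases hij.eq_or_lt with h | h
    · rw [h]
    · have := hwsep i j h hj
      have h2 : 0 ≤ L * M := mul_nonneg hL hM0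
      linarith
  have hdist : ∀ k k', k < k' → k' ≤ N → g k ≠ g k' := by
    intro k k' hkk hk' heq
    have hkN : k < N := by omega
    have hu := hg2 k (by omega) hkN
    have hl := hg1 k' hk' (by omega)
    have hm := hwmono k (k' - 1) (by omega) (by omega)
    have hD1 := hg5 k (by omega)
    have hD2 := hg4 k' hk'
    rw [← heq] at hD2
    obtain ⟨hyk, hrk⟩ := hy'0 k hkN
    have hwk : w k = Real.log |y' k| := by rw [hw]
    have hγ := hD1.1
    -- the other terms are small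
    have hsmall : ∀ g' ∈ F.support.erase (g k),
        |F.coeff g' * y' k ^ g'| ≤ Real.exp (-d) * |F.coeff (g k) * y' k ^ (g k)| := by
      intro g' hg'
      rw [Finset.mem_erase, Polynomial.mem_support_iff] at hg'
      have hkey : Real.log |F.coeff g'| + g' * w k ≤ Real.log |F.coeff (g k)| + g k * w k - d := by
        rcases lt_or_gt_of_ne hg'.1 with h | h
        · -- g' < g k
          have h1 := hD1.2 g' hg'.2
          have h2 : (g' : ℝ) + 1 ≤ g k := by exact_mod_cast h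
          nlinarith
        · have h1 := hD2.2 g' hg'.2
          have h2 : (g k : ℝ) + 1 ≤ g' := by exact_mod_cast h
          nlinarith
      have hval : ∀ n, F.coeff n ≠ 0 → |F.coeff n * y' k ^ n| =
          Real.exp (Real.log |F.coeff n| + n * w k) := by
        intro n hn
        rw [Real.exp_add, Real.exp_log (abs_pos.mpr hn), abs_mul, abs_pow, hwk,
          ← Real.log_pow, Real.exp_log (pow_pos (abs_pos.mpr hyk) n)]
      rw [hval g' hg'.2, hval (g k) hγ, ← Real.exp_add]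
      apply Real.exp_le_exp.mpr
      linarith
    have hev : F.eval (y' k) = 0 := hrk
    rw [Polynomial.eval_eq_sum, Polynomial.sum_def,
      ← Finset.add_sum_erase _ _ (Polynomial.mem_support_iff.mpr hγ)] at hev
    have h1 : |F.coeff (g k) * y' k ^ (g k)| ≤
        ∑ g' ∈ F.support.erase (g k), Real.exp (-d) * |F.coeff (g k) * y' k ^ (g k)| := by
      have h2 : F.coeff (g k) * y' k ^ (g k) =
          - ∑ g' ∈ F.support.erase (g k), F.coeff g' * y' k ^ g' := by linarith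
      calc |F.coeff (g k) * y' k ^ (g k)| =
          |∑ g' ∈ F.support.erase (g k), F.coeff g' * y' k ^ g'| := by
            rw [h2, abs_neg]
        _ ≤ ∑ g' ∈ F.support.erase (g k), |F.coeff g' * y' k ^ g'| :=
            Finset.abs_sum_le_sum_abs _ _
        _ ≤ _ := Finset.sum_le_sum hsmall
    rw [Finset.sum_const, nsmul_eq_mul] at h1
    have hpos : 0 < |F.coeff (g k) * y' k ^ (g k)| :=
      abs_pos.mpr (mul_ne_zero hγ (pow_ne_zero _ hyk))
    have hc1 : ((F.support.erase (g k)).card : ℝ) ≤ M := by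
      refine le_trans ?_ hcardS
      exact_mod_cast Finset.card_le_card (Finset.erase_subset _ _)
    have he : Real.exp (-d) * (M + 1) = 1 := by
      rw [← hexpd, ← Real.exp_add]; simp
    have hepos : 0 < Real.exp (-d) := Real.exp_pos _
    have h3 : ((F.support.erase (g k)).card : ℝ) *
        (Real.exp (-d) * |F.coeff (g k) * y' k ^ (g k)|) ≤
        M * (Real.exp (-d) * |F.coeff (g k) * y' k ^ (g k)|) :=
      mul_le_mul_of_nonneg_right hc1 (by positivity)
    have h4 : M * (Real.exp (-d) * |F.coeff (g k) * y' k ^ (g k)|) =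
        |F.coeff (g k) * y' k ^ (g k)| - Real.exp (-d) * |F.coeff (g k) * y' k ^ (g k)| := by
      have : M * (Real.exp (-d) * |F.coeff (g k) * y' k ^ (g k)|) =
        (Real.exp (-d) * (M + 1)) * |F.coeff (g k) * y' k ^ (g k)| -
          Real.exp (-d) * |F.coeff (g k) * y' k ^ (g k)| := by ring
      rw [this, he, one_mul]
    have h5 : 0 < Real.exp (-d) * |F.coeff (g k) * y' k ^ (g k)| := by positivity
    linarith
  obtain ⟨V, hVe⟩ : ∃ V : Finset ℕ, V = (range (N + 1)).image g := ⟨_, rfl⟩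
  have hVcard : V.card = N + 1 := by
    rw [hVe, Finset.card_image_of_injOn, Finset.card_range]
    intro k hk k' hk' h
    rw [Finset.mem_coe, Finset.mem_range] at hk hk'
    rcases lt_trichotomy k k' with h1 | h1 | h1
    · exact absurd h (hdist k k' h1 (by omega))
    · exact h1
    · exact absurd h.symm (hdist k' k h1 (by omega))
  have hVd : ∀ x ∈ V, ∃ l' u' : ℝ, l' + 2 * L ≤ u' ∧ Dom F x l' ∧ Dom F x u' := by
    intro x hx
    rw [hVe, Finset.mem_image] at hx
    obtain ⟨k, hk, rfl⟩ := hx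
    rw [Finset.mem_range] at hk
    exact ⟨l k, u k, hg3 k (by omega), hg4 k (by omega), hg5 k (by omega)⟩
  choose! l' u' hlu using hVd
  exact ⟨V, l', u', hVcard, hlu⟩

theorem log_of_sep {x y M L q : ℝ} {n : ℕ} (hM : 0 ≤ M) (hq : 0 < q) (hLe : L = Real.log q)
    (hn : (n : ℝ) = 2 * M) (hx : x ≠ 0) (h : (M + 1) ^ 2 * q ^ n * |x| ≤ |y|) :
    Real.log |x| + (2 * Real.log (M + 1) + 2 * L * M) ≤ Real.log |y| := by
  have hpi : 0 < |x| := abs_pos.mpr hx
  have hpos1 : (0 : ℝ) < (M + 1) ^ 2 := by positivity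
  have hpos2 : (0 : ℝ) < q ^ n := by positivity
  have h2 := Real.log_le_log (by positivity) h
  rw [Real.log_mul (by positivity) hpi.ne', Real.log_mul hpos1.ne' hpos2.ne', Real.log_pow,
    Real.log_pow, ← hLe, hn] at h2
  push_cast at h2
  linarith

theorem exists_pair {s : ℕ} (c : Fin s → ℝ) (f : Fin s → ℝ[X]) (A : Finset ℕ)
    (hf : ∀ i, (f i).support ⊆ A) (g : ℕ) (hg : (sos c f).coeff g ≠ 0) :
    ∃ x ∈ A, ∃ y ∈ A, x + y = g ∧ |(sos c f).coeff g| ≤ A.card * |Wm c f x y| := by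
  classical
  obtain ⟨T, hT⟩ : ∃ T, T = (antidiagonal g).filter (fun z => z.1 ∈ A ∧ z.2 ∈ A) := ⟨_, rfl⟩
  have hsum : (sos c f).coeff g = ∑ z ∈ T, Wm c f z.1 z.2 := by
    rw [sos_coeff, hT]
    symm
    apply Finset.sum_subset (Finset.filter_subset _ _)
    intro z hz hz'
    apply Wm_zero c f A hf
    intro h
    exact hz' (Finset.mem_filter.mpr ⟨hz, h⟩)
  have hmem : ∀ z ∈ T, z.1 + z.2 = g ∧ z.1 ∈ A ∧ z.2 ∈ A := by
    intro z hz
    rw [hT, Finset.mem_filter, Finset.HasAntidiagonal.mem_antidiagonal] at hz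
    exact hz
  have hne : T.Nonempty := by
    rw [Finset.nonempty_iff_ne_empty]
    intro h
    rw [h, Finset.sum_empty] at hsum
    exact hg hsum
  obtain ⟨z0, hz0, hmax⟩ := T.exists_max_image (fun z => |Wm c f z.1 z.2|) hne
  have hcard : (T.card : ℝ) ≤ A.card := by
    have h1 : T.card ≤ A.card := by
      apply Finset.card_le_card_of_injOn (fun z => z.1)
      · intro z hz
        exact (hmem z hz).2.1
      · intro z hz z' hz' h
        have h1 := hmem z hz
        have h2 := hmem z' hz'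
        have h3 : z.1 = z'.1 := h
        apply Prod.ext h3
        omega
    exact_mod_cast h1
  have h := hmem z0 hz0
  refine ⟨z0.1, h.2.1, z0.2, h.2.2, h.1, ?_⟩
  rw [hsum]
  calc |∑ z ∈ T, Wm c f z.1 z.2| ≤ ∑ z ∈ T, |Wm c f z.1 z.2| := Finset.abs_sum_le_sum_abs _ _
    _ ≤ ∑ z ∈ T, |Wm c f z0.1 z0.2| := Finset.sum_le_sum hmax
    _ = T.card * |Wm c f z0.1 z0.2| := by rw [Finset.sum_const, nsmul_eq_mul]
    _ ≤ A.card * |Wm c f z0.1 z0.2| := mul_le_mul_of_nonneg_right hcard (abs_nonneg _)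

theorem main (s : ℕ) (A : Finset ℕ) (K : ℝ) (hK : 0 ≤ K)
    (c : Fin s → ℝ) (f : Fin s → ℝ[X]) (hf : ∀ i, (f i).support ⊆ A)
    (hNC : ∀ a b : ℕ, |Wm c f a b| ≤ K * |(sos c f).coeff (a + b)|)
    (hF : sos c f ≠ 0) (N : ℕ) (y : Fin N → ℝ) (hy0 : ∀ i, y i ≠ 0)
    (hroot : ∀ i, (sos c f).IsRoot (y i))
    (hsep : ∀ i j, i < j →
      ((A.card : ℝ) ^ 2 + 1) ^ 2 * (s * A.card * K + 1) ^ (2 * A.card ^ 2) * |y i| ≤ |y j|) :
    N + 1 ≤ s * A.card := by
  obtain ⟨M, hM⟩ : ∃ M : ℝ, M = (A.card : ℝ) ^ 2 := ⟨_, rfl⟩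
  have hM0 : 0 ≤ M := by rw [hM]; positivity
  have hpair := exists_pair c f A hf
  have hcardS : ((sos c f).support.card : ℝ) ≤ M := by
    have h1 : (sos c f).support ⊆ (A ×ˢ A).image (fun z => z.1 + z.2) := by
      intro g hg
      obtain ⟨x, hx, y, hy, hxy, -⟩ := hpair g (Polynomial.mem_support_iff.mp hg)
      rw [Finset.mem_image]
      exact ⟨(x, y), by simp [hx, hy], hxy⟩
    have h2 := (Finset.card_le_card h1).trans Finset.card_image_le
    rw [Finset.card_product] at h2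
    have h3 : ((sos c f).support.card : ℝ) ≤ ((A.card * A.card : ℕ) : ℝ) := by exact_mod_cast h2
    rw [hM, sq]
    push_cast at h3
    exact h3
  obtain ⟨L, hLe⟩ : ∃ L : ℝ, L = Real.log (s * A.card * K + 1) := ⟨_, rfl⟩
  have hq0 : (0 : ℝ) ≤ s * A.card * K := by positivity
  have hL : 0 ≤ L := by rw [hLe]; exact Real.log_nonneg (by linarith)
  have hLs : (A.card : ℝ) * (s * K) < Real.exp L := by
    rw [hLe, Real.exp_log (by linarith)]
    have : (A.card : ℝ) * (s * K) = s * A.card * K := by ring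
    linarith
  obtain ⟨V, l, u, hVc, hV⟩ := extract (sos c f) hF M hcardS L hL N y hy0 hroot (fun i j hij =>
    log_of_sep (n := 2 * A.card ^ 2) hM0 (by linarith) hLe (by rw [hM]; push_cast; ring) (hy0 i)
      (by rw [hM]; exact hsep i j hij))
  have hfinal := cardV A (Wm c f) (sos c f) s L K A.card hL hK (Nat.cast_nonneg _) hLs
    (fun x _ y _ => hNC x y) (Wm_symm c f) (fun a => rel s c f a) hpair V l u hV
  rw [hVc] at hfinal
  exact hfinal

theorem sidon_nc {s : ℕ} (c : Fin s → ℝ) (f : Fin s → ℝ[X]) (A : Finset ℕ) (hA : Sidon A)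
    (hf : ∀ i, (f i).support ⊆ A) (a b : ℕ) : |Wm c f a b| ≤ |(sos c f).coeff (a + b)| := by
  by_cases h : a ∈ A ∧ b ∈ A
  · rw [coeff_add c f A hA hf h.1 h.2]
    split_ifs
    · exact le_rfl
    · rw [abs_mul, abs_two]
      linarith [abs_nonneg (Wm c f a b)]
  · rw [Wm_zero c f A hf h, abs_zero]
    exact abs_nonneg _

end Pool.Agent.TH990.SOS
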