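import Mathlib

set_option autoImplicit false

namespace Pool.Agent.TH990.SOS

open Polynomial Finset

/-- the monomial of degree `g` has the largest absolute value among those of `F` at `exp v` -/
def Dom (F : ℝ[X]) (g : ℕ) (v : ℝ) : Prop :=
  F.coeff g ≠ 0 ∧ ∀ g' : ℕ, F.coeff g' ≠ 0 →
    Real.log |F.coeff g'| + g' * v ≤ Real.log |F.coeff g| + g * v

theorem exists_dom (F : ℝ[X]) (hF : F ≠ 0) (v : ℝ) : ∃ g, Dom F g v := by
  have hne : F.support.Nonempty := Polynomial.support_nonempty.mpr hF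
  obtain ⟨g, hg, hmax⟩ := F.support.exists_max_image
    (fun g => Real.log |F.coeff g| + g * v) hne
  exact ⟨g, Polynomial.mem_support_iff.mp hg,
    fun g' hg' => hmax g' (Polynomial.mem_support_iff.mpr hg')⟩

theorem exists_long (F : ℝ[X]) (hF : F ≠ 0) (S L : ℝ) (hL : 0 ≤ L) :
    ∃ (g : ℕ) (l u : ℝ), S ≤ l ∧ l + 2 * L ≤ u ∧ u ≤ S + 2 * L * F.support.card ∧
      Dom F g l ∧ Dom F g u := by
  choose G hG using fun i : ℕ => exists_dom F hF (S + 2 * L * i)
  have hmaps : ∀ i ∈ Finset.range (F.support.card + 1), G i ∈ F.support :=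
    fun i _ => Polynomial.mem_support_iff.mpr (hG i).1
  obtain ⟨i, hi, j, hj, hij, hGij⟩ := Finset.exists_ne_map_eq_of_card_lt_of_maps_to
    (by simp) hmaps
  wlog h : i < j generalizing i j
  · exact this j hj i hi hij.symm hGij.symm (by omega)
  have hj' : j ≤ F.support.card := by
    have := Finset.mem_range.mp hj; omega
  have hjr : (j : ℝ) ≤ F.support.card := by exact_mod_cast hj'
  have hijr : (i : ℝ) + 1 ≤ j := by exact_mod_cast h
  have hi0 : (0 : ℝ) ≤ i := Nat.cast_nonneg i
  refine ⟨G i, S + 2 * L * i, S + 2 * L * j, ?_, ?_, ?_, hG i, ?_⟩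
  · have := mul_nonneg hL hi0
    linarith
  · nlinarith
  · nlinarith
  · rw [hGij]; exact hG j

theorem log_sep {F : ℝ[X]} {g g' : ℕ} {v v' : ℝ} (h : Dom F g v) (h' : Dom F g' v')
    (hgg : g < g') :
    v ≤ (Real.log |F.coeff g| - Real.log |F.coeff g'|) / ((g' : ℝ) - g) ∧
    (Real.log |F.coeff g| - Real.log |F.coeff g'|) / ((g' : ℝ) - g) ≤ v' := by
  have hgr : (g : ℝ) < g' := by exact_mod_cast hgg
  have hpos : (0 : ℝ) < (g' : ℝ) - g := by linarith
  have h1 := h.2 g' h'.1
  have h2 := h'.2 g h.1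
  constructor
  · rw [le_div_iff₀ hpos]; linarith
  · rw [div_le_iff₀ hpos]; linarith

/-- a vertex with a long interval of dominance -/
def Vx (F : ℝ[X]) (L : ℝ) (l u : ℕ → ℝ) (x : ℕ) : Prop :=
  l x + 2 * L ≤ u x ∧ Dom F x (l x) ∧ Dom F x (u x)

/-- slope between two vertices -/
noncomputable def sl (F : ℝ[X]) (l u : ℕ → ℝ) (x y : ℕ) : ℝ :=
  if x = y then (l x + u x) / 2
  else (Real.log |F.coeff x| - Real.log |F.coeff y|) / ((y : ℝ) - x)

theorem sl_eq (F : ℝ[X]) (l u : ℕ → ℝ) (x y : ℕ) :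
    Real.log |F.coeff y| = Real.log |F.coeff x| - sl F l u x y * ((y : ℝ) - x) := by
  unfold sl
  split_ifs with h
  · subst h; simp
  · have : (y : ℝ) - x ≠ 0 := by
      intro h0
      apply h
      have : (x : ℝ) = y := by linarith
      exact_mod_cast this
    field_simp
    ring

theorem sl_symm (F : ℝ[X]) (l u : ℕ → ℝ) (x y : ℕ) : sl F l u x y = sl F l u y x := by
  unfold sl
  by_cases h : x = y
  · subst h; rfl
  · rw [if_neg h, if_neg (Ne.symm h)]
    rw [← neg_div_neg_eq]
    congr 1 <;> ring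

theorem sl_bounds {F : ℝ[X]} {L : ℝ} (hL : 0 ≤ L) {l u : ℕ → ℝ} {x y : ℕ}
    (hx : Vx F L l u x) (hy : Vx F L l u y) (hxy : x ≤ y) :
    l x + L ≤ sl F l u x y ∧ sl F l u x y ≤ u y - L := by
  rcases hxy.eq_or_lt with h | h
  · subst h
    unfold sl
    rw [if_pos rfl]
    constructor <;> linarith [hx.1]
  · unfold sl
    rw [if_neg (ne_of_lt h)]
    have := log_sep hx.2.2 hy.2.1 h
    constructor
    · linarith [hx.1, this.1]
    · linarith [hy.1, this.2]

theorem lu_mono {F : ℝ[X]} {L : ℝ} (hL : 0 ≤ L) {l u : ℕ → ℝ} {x y : ℕ}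
    (hx : Vx F L l u x) (hy : Vx F L l u y) (hxy : x ≤ y) : l x ≤ l y ∧ u x ≤ u y := by
  rcases hxy.eq_or_lt with h | h
  · subst h; exact ⟨le_rfl, le_rfl⟩
  · have := log_sep hx.2.2 hy.2.1 h
    constructor
    · linarith [hx.1, this.1, this.2]
    · linarith [hy.1, this.1, this.2]

theorem sl_low {F : ℝ[X]} {L : ℝ} (hL : 0 ≤ L) {l u : ℕ → ℝ} {x y z : ℕ}
    (hx : Vx F L l u x) (hy : Vx F L l u y) (hz : Vx F L l u z) (hzx : z ≤ x) (hzy : z ≤ y) :
    l z + L ≤ sl F l u x y := by
  rcases le_total x y with h | h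
  · linarith [(sl_bounds hL hx hy h).1, (lu_mono hL hz hx hzx).1]
  · rw [sl_symm]
    linarith [(sl_bounds hL hy hx h).1, (lu_mono hL hz hy hzy).1]

theorem sl_high {F : ℝ[X]} {L : ℝ} (hL : 0 ≤ L) {l u : ℕ → ℝ} {x y z : ℕ}
    (hx : Vx F L l u x) (hy : Vx F L l u y) (hz : Vx F L l u z) (hzx : x ≤ z) (hzy : y ≤ z) :
    sl F l u x y ≤ u z - L := by
  rcases le_total x y with h | h
  · linarith [(sl_bounds hL hx hy h).2, (lu_mono hL hy hz hzy).2]
  · rw [sl_symm]
    linarith [(sl_bounds hL hy hx h).2, (lu_mono hL hx hz hzx).2]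

theorem tele_ge (vb x : ℕ → ℝ) (c : ℝ) (r p : ℕ) (hrp : r ≤ p)
    (hx : ∀ i, r ≤ i → i < p → c * (x (i+1) - x i) ≤ vb i * (x (i+1) - x i)) :
    c * (x p - x r) ≤ ∑ i ∈ range p, vb i * (x (i+1) - x i) -
      ∑ i ∈ range r, vb i * (x (i+1) - x i) := by
  induction p, hrp using Nat.le_induction with
  | base => simp
  | succ p hp ih =>
    have h1 := ih (fun i hi hip => hx i hi (by omega))
    have h2 := hx p hp (by omega)
    rw [Finset.sum_range_succ]
    linarith

theorem key (A : Finset ℕ) (W : ℕ → ℕ → ℝ) (F : ℝ[X]) (s : ℕ) (L K m : ℝ) (hL : 0 ≤ L)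
    (hK : 0 ≤ K) (hm : 0 ≤ m) (hLs : m * (s * K) < Real.exp L)
    (hW1 : ∀ x ∈ A, ∀ y ∈ A, |W x y| ≤ K * |F.coeff (x+y)|)
    (a b : ℕ → ℕ)
    (hW2 : ∀ r ≤ s, |F.coeff (a r + b r)| ≤ m * |W (a r) (b r)|)
    (hrank : ∃ lam : ℕ → ℝ, (∃ r ≤ s, lam r ≠ 0) ∧
      ∀ y, ∑ r ∈ range (s+1), lam r * W (a r) y = 0)
    (ha : ∀ r ≤ s, a r ∈ A) (hb : ∀ r ≤ s, b r ∈ A)
    (hamono : ∀ r q, r < q → q ≤ s → a r < a q)
    (hbanti : ∀ r q, r < q → q ≤ s → b q < b r)
    (l u : ℕ → ℝ) (hV : ∀ r ≤ s, Vx F L l u (a r + b r)) : False := by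
  set vb : ℕ → ℝ := fun i => sl F l u (a i + b i) (a (i+1) + b (i+1)) with hvb
  set Cc : ℕ → ℝ := fun r => Real.log |F.coeff (a r + b r)| with hCc
  set rho : ℕ → ℝ := fun r => - ∑ i ∈ range r, vb i * ((a (i+1) : ℝ) - a i) with hrho
  set kap : ℕ → ℝ := fun r => Cc 0 - ∑ i ∈ range r, vb i * ((b (i+1) : ℝ) - b i) with hkap
  have hsum : ∀ r, rho r + kap r = Cc r := by
    intro r
    induction r with
    | zero => simp [hrho, hkap]
    | succ r ih =>
      have h1 := sl_eq F l u (a r + b r) (a (r+1) + b (r+1))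
      have h2 : Cc (r+1) = Cc r - vb r * (((a (r+1) + b (r+1) : ℕ) : ℝ) - ((a r + b r : ℕ) : ℝ)) := h1
      push_cast at h2
      rw [h2, ← ih]
      simp only [hrho, hkap, Finset.sum_range_succ]
      ring
  -- the off-diagonal entries
  have hoff : ∀ r q, r ≤ s → q ≤ s → r ≠ q →
      |W (a r) (b q)| ≤ K * Real.exp (rho r + kap q - L) := by
    intro r q hr hq hrq
    by_cases hF0 : F.coeff (a r + b q) = 0
    · have : |W (a r) (b q)| ≤ 0 := by
        have := hW1 (a r) (ha r hr) (b q) (hb q hq)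
        rw [hF0, abs_zero, mul_zero] at this
        exact this
      exact this.trans (mul_nonneg hK (Real.exp_pos _).le)
    have hpos : 0 < |F.coeff (a r + b q)| := abs_pos.mpr hF0
    refine (hW1 (a r) (ha r hr) (b q) (hb q hq)).trans (mul_le_mul_of_nonneg_left ?_ hK)
    rw [← Real.exp_log hpos]
    apply Real.exp_le_exp.mpr
    rcases lt_or_gt_of_ne hrq with h | h
    · -- r < q
      obtain ⟨p, hp, hmin⟩ := (Finset.Icc r q).exists_min_image (fun i => a i + b i)
        ⟨r, by simp [h.le]⟩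
      rw [Finset.mem_Icc] at hp
      have hps : p ≤ s := hp.2.trans hq
      have hdom := (hV p hps).2.1.2 (a r + b q) hF0
      have hvlow : ∀ i, r ≤ i → i < q → l (a p + b p) + L ≤ vb i := by
        intro i hi hiq
        exact sl_low hL (hV i (by omega)) (hV (i+1) (by omega)) (hV p hps)
          (hmin i (by rw [Finset.mem_Icc]; omega)) (hmin (i+1) (by rw [Finset.mem_Icc]; omega))
      have h1 := tele_ge vb (fun i => (a i : ℝ)) (l (a p + b p) + L) r p hp.1 (by
        intro i hi hip
        have : (a i : ℝ) < a (i+1) := by exact_mod_cast hamono i (i+1) (by omega) (by omega)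
        exact mul_le_mul_of_nonneg_right (hvlow i hi (by omega)) (by linarith))
      have h2 := tele_ge vb (fun i => -(b i : ℝ)) (l (a p + b p) + L) p q hp.2 (by
        intro i hi hip
        have : (b (i+1) : ℝ) < b i := by exact_mod_cast hbanti i (i+1) (by omega) (by omega)
        exact mul_le_mul_of_nonneg_right (hvlow i (by omega) hip) (by linarith))
      have h3 : ∀ n, ∑ i ∈ range n, vb i * (-(b (i+1) : ℝ) - -(b i : ℝ)) =
          - ∑ i ∈ range n, vb i * ((b (i+1) : ℝ) - b i) := by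
        intro n
        rw [← Finset.sum_neg_distrib]
        exact Finset.sum_congr rfl fun i _ => by ring
      rw [h3, h3] at h2
      have hpp := hsum p
      have hgap : (1 : ℝ) ≤ ((a p : ℝ) - a r) + ((b p : ℝ) - b q) := by
        rcases hp.1.eq_or_lt with h4 | h4
        · have h5 : b q < b p := hbanti p q (by omega) hq
          have h6 : (b q : ℝ) + 1 ≤ b p := by exact_mod_cast h5
          rw [h4]; linarith
        · have h5 : a r < a p := hamono r p h4 hps
          have h6 : (a r : ℝ) + 1 ≤ a p := by exact_mod_cast h5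
          have h7 : b q ≤ b p := by
            rcases hp.2.eq_or_lt with h8 | h8
            · rw [h8]
            · exact (hbanti p q h8 hq).le
          have h9 : (b q : ℝ) ≤ b p := by exact_mod_cast h7
          linarith
      push_cast at hdom
      have hLgap := mul_le_mul_of_nonneg_left hgap hL
      simp only [hrho, hkap, hCc] at hpp ⊢
      nlinarith
    · -- q < r
      obtain ⟨p, hp, hmax⟩ := (Finset.Icc q r).exists_max_image (fun i => a i + b i)
        ⟨q, by simp [h.le]⟩
      rw [Finset.mem_Icc] at hp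
      have hps : p ≤ s := hp.2.trans hr
      have hdom := (hV p hps).2.2.2 (a r + b q) hF0
      have hvhigh : ∀ i, q ≤ i → i < r → vb i ≤ u (a p + b p) - L := by
        intro i hi hiq
        exact sl_high hL (hV i (by omega)) (hV (i+1) (by omega)) (hV p hps)
          (hmax i (by rw [Finset.mem_Icc]; omega)) (hmax (i+1) (by rw [Finset.mem_Icc]; omega))
      have h1 := tele_ge (fun i => - vb i) (fun i => (a i : ℝ)) (-(u (a p + b p) - L)) p r hp.2 (by
        intro i hi hip
        have : (a i : ℝ) < a (i+1) := by exact_mod_cast hamono i (i+1) (by omega) (by omega)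
        have h2 := hvhigh i (by omega) hip
        exact mul_le_mul_of_nonneg_right (by linarith) (by linarith))
      have h2 := tele_ge vb (fun i => (b i : ℝ)) (u (a p + b p) - L) q p hp.1 (by
        intro i hi hip
        have : (b (i+1) : ℝ) < b i := by exact_mod_cast hbanti i (i+1) (by omega) (by omega)
        exact mul_le_mul_of_nonpos_right (hvhigh i hi (by omega)) (by linarith))
      have h3 : ∀ n, ∑ i ∈ range n, (-vb i) * ((a (i+1) : ℝ) - (a i : ℝ)) =
          - ∑ i ∈ range n, vb i * ((a (i+1) : ℝ) - a i) := by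
        intro n
        rw [← Finset.sum_neg_distrib]
        exact Finset.sum_congr rfl fun i _ => by ring

      rw [h3, h3] at h1
      have hpp := hsum p
      have hgap : (1 : ℝ) ≤ ((a r : ℝ) - a p) + ((b q : ℝ) - b p) := by
        rcases hp.2.eq_or_lt with h4 | h4
        · have h5 : b p < b q := hbanti q p (by omega) hps
          have h6 : (b p : ℝ) + 1 ≤ b q := by exact_mod_cast h5
          rw [h4] at h6 ⊢; linarith
        · have h5 : a p < a r := hamono p r h4 hr
          have h6 : (a p : ℝ) + 1 ≤ a r := by exact_mod_cast h5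
          have h7 : b p ≤ b q := by
            rcases hp.1.eq_or_lt with h8 | h8
            · rw [h8]
            · exact (hbanti q p h8 hps).le
          have h9 : (b p : ℝ) ≤ b q := by exact_mod_cast h7
          linarith
      push_cast at hdom
      have hLgap := mul_le_mul_of_nonneg_left hgap hL
      simp only [hrho, hkap, hCc] at hpp ⊢
      nlinarith
  -- the linear relation
  obtain ⟨lam, ⟨r0, hr0, hlr0⟩, hlam⟩ := hrank
  obtain ⟨q, hq, hqmax⟩ := (Finset.range (s+1)).exists_max_image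
    (fun r => |lam r| * Real.exp (rho r)) ⟨r0, by simp; omega⟩
  rw [Finset.mem_range] at hq
  have hqs : q ≤ s := by omega
  have hlq : 0 < |lam q| := by
    have h1 := hqmax r0 (by rw [Finset.mem_range]; omega)
    have h2 : 0 < |lam r0| * Real.exp (rho r0) :=
      mul_pos (abs_pos.mpr hlr0) (Real.exp_pos _)
    by_contra h3
    have h4 : |lam q| = 0 := le_antisymm (not_lt.mp h3) (abs_nonneg _)
    simp only [h4, zero_mul] at h1
    linarith
  have h0 := hlam (b q)
  rw [← Finset.add_sum_erase _ _ (Finset.mem_range.mpr hq)] at h0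
  have h1 : |lam q * W (a q) (b q)| ≤ ∑ r ∈ (range (s+1)).erase q,
      K * (|lam q| * Real.exp (Cc q - L)) := by
    have h2 : lam q * W (a q) (b q) = - ∑ r ∈ (range (s+1)).erase q, lam r * W (a r) (b q) := by
      linarith
    rw [h2, abs_neg]
    refine (Finset.abs_sum_le_sum_abs _ _).trans (Finset.sum_le_sum ?_)
    intro r hr
    rw [Finset.mem_erase, Finset.mem_range] at hr
    rw [abs_mul]
    have h3 := hoff r q (by omega) hqs hr.1
    have h4 := hqmax r (by rw [Finset.mem_range]; omega)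

    calc |lam r| * |W (a r) (b q)| ≤ |lam r| * (K * Real.exp (rho r + kap q - L)) :=
          mul_le_mul_of_nonneg_left h3 (abs_nonneg _)
      _ = K * ((|lam r| * Real.exp (rho r)) * Real.exp (kap q - L)) := by
          have : rho r + kap q - L = rho r + (kap q - L) := by ring
          rw [this, Real.exp_add]; ring
      _ ≤ K * ((|lam q| * Real.exp (rho q)) * Real.exp (kap q - L)) :=
          mul_le_mul_of_nonneg_left (mul_le_mul_of_nonneg_right h4 (Real.exp_pos _).le) hK
      _ = K * (|lam q| * Real.exp (Cc q - L)) := by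
          rw [mul_assoc |lam q|, ← Real.exp_add, ← hsum q]; congr 3; ring
  rw [Finset.sum_const, Finset.card_erase_of_mem (Finset.mem_range.mpr hq), Finset.card_range,
    Nat.add_sub_cancel, nsmul_eq_mul, abs_mul] at h1
  have hFq : F.coeff (a q + b q) ≠ 0 := (hV q hqs).2.1.1
  have h5 : Real.exp (Cc q) = |F.coeff (a q + b q)| := Real.exp_log (abs_pos.mpr hFq)
  have h6 := hW2 q hqs
  rw [← h5] at h6
  have h7 : Real.exp (Cc q - L) * Real.exp L = Real.exp (Cc q) := by
    rw [← Real.exp_add]; congr 1; ring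
  have h9 : 0 < Real.exp (Cc q - L) := Real.exp_pos _
  have h8 : |W (a q) (b q)| ≤ s * K * Real.exp (Cc q - L) := by
    have : |lam q| * |W (a q) (b q)| ≤ |lam q| * (s * K * Real.exp (Cc q - L)) := by
      refine h1.trans (le_of_eq ?_)
      ring
    exact le_of_mul_le_mul_left this hlq
  have h10 : Real.exp (Cc q - L) * Real.exp L ≤ m * (s * K * Real.exp (Cc q - L)) := by
    rw [h7]
    exact h6.trans (mul_le_mul_of_nonneg_left h8 hm)
  have h11 : m * ((s : ℝ) * K) * Real.exp (Cc q - L) < Real.exp L * Real.exp (Cc q - L) :=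
    mul_lt_mul_of_pos_right hLs h9
  nlinarith

end Pool.Agent.TH990.SOS
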